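import Pool.Agent.Helper693.RF.FibreDefs
import Pool.Agent.Helper693.RF.Assembly

namespace Pool.Agent.Results.MP_9e4267_ag.FibreRegularity

open MvPolynomial H693RF

/-- Every fibre of a general linear projection of a smooth projective variety of dimension `n` to
projective `(n+c)`-space has Castelnuovo-Mumford regularity at most `n/c + 1`. -/
theorem result (𝕜 : Type*) [Field 𝕜] [IsAlgClosed 𝕜] [CharZero 𝕜] (r n c : ℕ) (hc : 1 ≤ c) (hr : n + c < r)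
    (P : Ideal (MvPolynomial (Fin (r+1)) 𝕜)) (hP : IsSmoothProjectiveVariety 𝕜 r n P) :
    ∃ Φ : MvPolynomial (Fin (n+c+1) × Fin (r+1)) 𝕜, Φ ≠ 0 ∧
      ∀ H : Fin (n+c+1) → Fin (r+1) → 𝕜, eval (fun ij => H ij.1 ij.2) Φ ≠ 0 →
        LinearIndependent 𝕜 H ∧
        (∀ x : Fin (r+1) → 𝕜, x ≠ 0 → (∀ F ∈ P, eval x F = 0) → ∃ i, eval x (linForm (H i)) ≠ 0) ∧
        ∀ p : Fin (n+c+1) → 𝕜, p ≠ 0 →
          (∃ δ, IsFiniteOfDegree (fiberIdeal P H p) δ) ∧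
          {m | 1 ≤ m ∧ ImposesIndependentConditions (fiberIdeal P H p) (m - 1)}.Nonempty ∧
          ((reg (fiberIdeal P H p) : ℕ) : ℚ) ≤ (n : ℚ) / c + 1 :=
  H693RF.result 𝕜 r n c hc hr P hP

end Pool.Agent.Results.MP_9e4267_ag.FibreRegularity
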