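import Pool.Agent.Helper693.RF.FibreDefs
import Pool.Agent.Helper693.RF.GrDefs
import Pool.Agent.Helper693.RF.GrAssembly

namespace Pool.Agent.Results.MP_9e4267_ag.FibreRegularityGrassmannian

open MvPolynomial H693RF

/-- For a smooth projective variety of dimension `n` in projective `r`-space there is a dense open subset `U` of the
Grassmannian of centres such that for every centre in `U` the projection to projective `(n+c)`-space is defined on the variety
and each of its fibres has Castelnuovo-Mumford regularity at most `n/c + 1`. -/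
theorem result (𝕜 : Type*) [Field 𝕜] [IsAlgClosed 𝕜] [CharZero 𝕜] (r n c : ℕ) (hc : 1 ≤ c) (hr : n + c < r)
    (P : Ideal (MvPolynomial (Fin (r+1)) 𝕜)) (hP : IsSmoothProjectiveVariety 𝕜 r n P) :
    ∃ U : Set (Submodule 𝕜 (Fin (r+1) → 𝕜)), IsDenseOpen r (n+c+1) U ∧
      ∀ Λ ∈ U, (∀ x ∈ Λ, x ≠ 0 → ∃ F ∈ P, eval x F ≠ 0) ∧
        ∀ H : Fin (n+c+1) → Fin (r+1) → 𝕜, centre H = Λ → ∀ p : Fin (n+c+1) → 𝕜, p ≠ 0 →
          ∃ m : ℕ, IsRegularity (fiberIdeal P H p) m ∧ (m : ℚ) ≤ (n : ℚ) / c + 1 :=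
  H693RF.result_gr 𝕜 r n c hc hr P hP

end Pool.Agent.Results.MP_9e4267_ag.FibreRegularityGrassmannian
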